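import Mathlib

/-!
# A regular self-complementary graph with `F(G) = V(G)` and `N(G) = E(G)` not strongly regular

Join two elements of `ZMod 13` when their difference is one of `±1, ±2, ±4`. For all `u, v` the map
`x ↦ v + 8 (x - u)` is an isomorphism-permutation taking `u` to `v`; hence each vertex is fixed by
one, and each edge `uv` joins two consecutive elements of a cycle of one. But the edges `{0, 1}` and
`{0, 4}` lie in different numbers of triangles.
-/

set_option autoImplicit false

namespace Pool.Agent.Results.MP_a93e77_co.NotStronglyRegular13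

/-- `P` is an isomorphism-permutation of `G`, an isomorphism from `G` onto its complement. -/
def IsoPerm {V : Type} (G : SimpleGraph V) (P : Equiv.Perm V) : Prop :=
  ∀ u v : V, u ≠ v → (G.Adj u v ↔ ¬ G.Adj (P u) (P v))

/-- The set `F(G)` of the vertices fixed by at least one isomorphism-permutation of `G`. -/
def FixedSet {V : Type} (G : SimpleGraph V) : Set V := {v | ∃ P, IsoPerm G P ∧ P v = v}

/-- The set `N(G)` of the edges of `G` whose ends are consecutive in a cycle of some
isomorphism-permutation of `G`. -/
def NextSet {V : Type} (G : SimpleGraph V) : Set (Sym2 V) :=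
  {e | e ∈ G.edgeSet ∧ ∃ u v : V, e = s(u, v) ∧ ∃ P, IsoPerm G P ∧ (P u = v ∨ P v = u)}

/-- `G` is regular: all vertices have the same number of neighbours. -/
def Regular {V : Type} (G : SimpleGraph V) : Prop := ∃ d : ℕ, ∀ v, (G.neighborSet v).ncard = d

/-- `G` is strongly regular: it is regular, all edges lie in the same number of triangles, and any
two distinct non-adjacent vertices have the same number of common neighbours. -/
def StronglyRegular {V : Type} (G : SimpleGraph V) : Prop :=
  Regular G ∧ (∃ l : ℕ, ∀ u v, G.Adj u v → (G.commonNeighbors u v).ncard = l) ∧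
    ∃ m : ℕ, ∀ u v, u ≠ v → ¬ G.Adj u v → (G.commonNeighbors u v).ncard = m

/-- The differences of adjacent vertices. -/
def diffs : Finset (ZMod 13) := {1, 2, 4, 9, 11, 12}

/-- The graph. -/
def graph : SimpleGraph (ZMod 13) where
  Adj i j := i - j ∈ diffs
  symm := ⟨by decide +kernel⟩
  loopless := ⟨by decide +kernel⟩

instance : DecidableRel graph.Adj := fun i j => inferInstanceAs (Decidable (i - j ∈ diffs))

/-- The isomorphism-permutation taking `u` to `v`. -/
def perm (u v : ZMod 13) : Equiv.Perm (ZMod 13) where
  toFun x := v + 8 * (x - u)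
  invFun x := u + 5 * (x - v)
  left_inv x := by
    have h : (5 * 8 : ZMod 13) = 1 := by decide +kernel
    calc u + 5 * (v + 8 * (x - u) - v) = u + (5 * 8) * (x - u) := by ring
      _ = x := by rw [h]; ring
  right_inv x := by
    have h : (8 * 5 : ZMod 13) = 1 := by decide +kernel
    calc v + 8 * (u + 5 * (x - v) - u) = v + (8 * 5) * (x - v) := by ring
      _ = x := by rw [h]; ring

theorem mult : ∀ d : ZMod 13, d ≠ 0 → (d ∈ diffs ↔ ¬ 8 * d ∈ diffs) := by
  decide +kernel

theorem perm_iso (u v : ZMod 13) : IsoPerm graph (perm u v) := by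
  intro x y hxy
  have h : perm u v x - perm u v y = 8 * (x - y) := by
    change v + 8 * (x - u) - (v + 8 * (y - u)) = 8 * (x - y)
    ring
  change x - y ∈ diffs ↔ ¬ (perm u v x - perm u v y ∈ diffs)
  rw [h]
  exact mult _ (sub_ne_zero.2 hxy)

theorem perm_apply (u v : ZMod 13) : perm u v u = v := by
  change v + 8 * (u - u) = v
  ring

theorem regular : Regular graph := by
  refine ⟨6, fun v => ?_⟩
  rw [Set.ncard_eq_toFinset_card']
  revert v
  decide +kernel

theorem not_stronglyRegular : ¬ StronglyRegular graph := by
  rintro ⟨-, ⟨l, hl⟩, -⟩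
  have h1 := hl 0 1 (by decide +kernel)
  have h2 := hl 0 4 (by decide +kernel)
  rw [Set.ncard_eq_toFinset_card'] at h1 h2
  have h3 : (graph.commonNeighbors 0 1).toFinset.card ≠
    (graph.commonNeighbors 0 4).toFinset.card := by decide +kernel
  exact h3 (h1.trans h2.symm)

/-- There is a regular self-complementary graph `G` on 13 vertices with `F(G) = V(G)` and
`N(G) = E(G)` that is not strongly regular. -/
theorem result : ∃ G : SimpleGraph (ZMod 13), Regular G ∧ Nonempty (G ≃g Gᶜ) ∧
    FixedSet G = Set.univ ∧ NextSet G = G.edgeSet ∧ ¬ StronglyRegular G := by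
  refine ⟨graph, regular, ⟨⟨perm 0 0, ?_⟩⟩, ?_, ?_, not_stronglyRegular⟩
  · intro a b
    rw [SimpleGraph.compl_adj]
    constructor
    · rintro ⟨h1, h2⟩
      exact (perm_iso 0 0 a b fun h => h1 (by rw [h])).2 h2
    · intro h
      exact ⟨fun h1 => h.ne ((perm 0 0).injective h1), (perm_iso 0 0 a b h.ne).1 h⟩
  · ext v
    exact ⟨fun _ => trivial, fun _ => ⟨perm v v, perm_iso v v, perm_apply v v⟩⟩
  · ext e
    refine ⟨fun h => h.1, fun h => ⟨h, ?_⟩⟩
    induction e with
    | _ u v => exact ⟨u, v, rfl, perm u v, perm_iso u v, Or.inl (perm_apply u v)⟩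

end Pool.Agent.Results.MP_a93e77_co.NotStronglyRegular13
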